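import Mathlib
import Pool.Agent.Lib.MP_af06f6_co.D.Stm
import Pool.Agent.Lib.MP_af06f6_co.D.Cert
import Pool.Agent.Lib.MP_af06f6_co.X.Stm

/-! # MP_af06f6_co: from certificates to the bound on one cell -/

open Set

namespace Pool.Agent.Lib.MP_af06f6_co

section
variable {α β : Type} {V : Finset α} {F : Finset β} {I : α → β → Prop} {x : α → ℝ} {z : β → ℝ}

/-- bound for the faces other than the two largest ones -/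
lemma third_le (h4 : Stm_CS4) (hC : Cfg V F I x z) {f₀ f₁ : β} (h0 : f₀ ∈ F) (h1 : f₁ ∈ F)
    (hne : f₀ ≠ f₁) (hmax : ∀ g ∈ F, g ≠ f₀ → z g ≤ z f₁) {a b c d : ℕ} (hz : z2OK a b c d = true)
    (ha : 1 ≤ a) (hb : 1 ≤ b) (h0a : (a : ℝ) / 16384 ≤ z f₀) (h1a : (b : ℝ) / 16384 ≤ z f₁)
    (h1b : z f₁ ≤ (c : ℝ) / 16384) : ∀ h ∈ F, h ≠ f₀ → h ≠ f₁ → z h ≤ (d : ℝ) / 16384 := by
  intro h hF hh0 hh1
  exact h4 a b c d hz ha hb (z f₀) (z f₁) (z h) h0a h1a h1b (hC.z0 h hF) (hmax h hF hh0)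
    (hC.cap f₀ h0 f₁ h1 h hF hne (Ne.symm hh1) (Ne.symm hh0))

theorem cellB (h4 : Stm_CS4) (h5 : Stm_CS5) (hDB : Stm_DB) (hC : Cfg V F I x z)
    (hX : ∀ v ∈ V, x v ≤ (13435 : ℝ) / 16384) {f₀ f₁ : β} (h0 : f₀ ∈ F) (h1 : f₁ ∈ F) (hne : f₀ ≠ f₁)
    (hmax : ∀ g ∈ F, g ≠ f₀ → z g ≤ z f₁) (c : CertB) (D : DomB) (hok : c.ok D = true)
    (h0a : (D.z0a : ℝ) ≤ 16384 * z f₀) (h0b : 16384 * z f₀ ≤ (D.z0b : ℝ))
    (h1a : (D.z1a : ℝ) ≤ 16384 * z f₁) (h1b : 16384 * z f₁ ≤ (D.z1b : ℝ))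
    (hk : c.kap = 0 ∨ (∃ v ∈ V, I v f₀ ∧ I v f₁ ∧ 16384 * x v ≤ (D.xs : ℝ)) ∨ ¬ AdjI V I f₀ f₁) :
    14.966 ≤ Len V F I x := by
  have e0a : (D.z0a : ℝ) / 16384 ≤ z f₀ := by rw [div_le_iff₀ (by norm_num)]; linarith
  have e0b : z f₀ ≤ (D.z0b : ℝ) / 16384 := by rw [le_div_iff₀ (by norm_num)]; linarith
  have e1a : (D.z1a : ℝ) / 16384 ≤ z f₁ := by rw [div_le_iff₀ (by norm_num)]; linarith
  have e1b : z f₁ ≤ (D.z1b : ℝ) / 16384 := by rw [le_div_iff₀ (by norm_num)]; linarith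
  obtain ⟨hB, hV, hy, hval⟩ := h5 c D hok (z f₀) (z f₁) e0a e0b e1a e1b
  have hz : z2OK D.z0a D.z1a D.z1b D.z2 = true ∧ 1 ≤ D.z0a ∧ 1 ≤ D.z1a := by
    unfold CertB.ok at hok
    simp only [Bool.and_eq_true, Nat.ble_eq] at hok
    tauto
  have hZ := third_le h4 hC h0 h1 hne hmax hz.1 hz.2.1 hz.2.2 e0a e1a e1b
  have hκ : (0 : ℝ) ≤ (c.kap : ℝ) / 10 ^ 6 := by positivity
  have hk' : ((c.kap : ℝ) / 10 ^ 6 = 0 ∨ (∃ v ∈ V, I v f₀ ∧ I v f₁ ∧ x v ≤ (D.xs : ℝ) / 16384) ∨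
      ¬ AdjI V I f₀ f₁) := by
    rcases hk with hk | ⟨v, hv, a, b, hk⟩ | hk
    · left; rw [hk]; norm_num
    · right; left
      exact ⟨v, hv, a, b, by rw [le_div_iff₀ (by norm_num)]; linarith⟩
    · right; right; exact hk
  have := hDB α β V F I x z hC _ _ _ _ _ _ _ _ _ _ _ _ _ _ _ _ _ _ f₀ f₁ h0 h1 hne hX hZ hB hV hκ hy hk'
  linarith

theorem cellN (h4 : Stm_CS4) (h6 : Stm_CS6) (h7 : Stm_CS7) (hDN : Stm_DN) (hC : Cfg V F I x z)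
    (hX : ∀ v ∈ V, x v ≤ (13435 : ℝ) / 16384) {f₀ f₁ : β} (h0 : f₀ ∈ F) (h1 : f₁ ∈ F)
    (hadj : AdjI V I f₀ f₁)
    (hmax : ∀ g ∈ F, g ≠ f₀ → z g ≤ z f₁) (c : CertE) (D : DomE) (hok : c.ok D = true)
    (hokN : c.okN D = true)
    (h0a : (D.z0a : ℝ) ≤ 16384 * z f₀) (h0b : 16384 * z f₀ ≤ (D.z0b : ℝ))
    (h1a : (D.z1a : ℝ) ≤ 16384 * z f₁) (h1b : 16384 * z f₁ ≤ (D.z1b : ℝ))
    (hxm : ∀ v ∈ V, I v f₀ → I v f₁ → (D.xm : ℝ) ≤ 16384 * x v)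
    (hzc : ∀ h ∈ F, AdjI V I h f₀ → AdjI V I h f₁ → (D.zc : ℝ) / 16384 ≤ z h)
    (hk : c.kap = 0 ∨ (∃ v ∈ V, I v f₀ ∧ I v f₁ ∧ 16384 * x v ≤ (D.xs : ℝ)))
    (hA : ¬ ExactAt V F I f₀ f₁) (hB : ¬ ExactAt V F I f₁ f₀) :
    14.966 ≤ Len V F I x := by
  have e0a : (D.z0a : ℝ) / 16384 ≤ z f₀ := by rw [div_le_iff₀ (by norm_num)]; linarith
  have e0b : z f₀ ≤ (D.z0b : ℝ) / 16384 := by rw [le_div_iff₀ (by norm_num)]; linarith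
  have e1a : (D.z1a : ℝ) / 16384 ≤ z f₁ := by rw [div_le_iff₀ (by norm_num)]; linarith
  have e1b : z f₁ ≤ (D.z1b : ℝ) / 16384 := by rw [le_div_iff₀ (by norm_num)]; linarith
  obtain ⟨hE, hEV⟩ := h6 c D hok (z f₀) (z f₁) e0a e0b (hC.z1 f₀ h0) e1a e1b
  obtain ⟨hN, hval⟩ := h7 c D hok hokN (z f₀) (z f₁) e0a e0b e1a e1b (hC.z1 f₁ h1)
  have hz : z2OK D.z0a D.z1a D.z1b D.z2 = true ∧ 1 ≤ D.z0a ∧ 1 ≤ D.z1a ∧ zcOK D.z0b D.z1b D.zc D.xm = true := by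
    unfold CertE.ok at hok
    simp only [Bool.and_eq_true, Nat.ble_eq] at hok
    tauto
  have hzc1 : 1 ≤ D.zc ∧ 1 ≤ D.xm := by
    have := hz.2.2.2
    unfold zcOK at this
    simp only [Bool.and_eq_true, Nat.ble_eq] at this
    tauto
  have hZ := third_le h4 hC h0 h1 hadj.1 hmax hz.1 hz.2.1 hz.2.2.1 e0a e1a e1b
  have hzp : (0 : ℝ) < (D.zc : ℝ) / 16384 := by
    have : (1 : ℝ) ≤ (D.zc : ℝ) := by exact_mod_cast hzc1.1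
    positivity
  have hxp : (0 : ℝ) < (D.xm : ℝ) / 16384 := by
    have : (1 : ℝ) ≤ (D.xm : ℝ) := by exact_mod_cast hzc1.2
    positivity
  have hxm' : ∀ v ∈ V, I v f₀ → I v f₁ → (D.xm : ℝ) / 16384 ≤ x v := by
    intro v hv a b
    have := hxm v hv a b
    rw [div_le_iff₀ (by norm_num)]; linarith
  have hk' : ((c.kap : ℝ) / 10 ^ 6 = 0 ∨ (∃ v ∈ V, I v f₀ ∧ I v f₁ ∧ x v ≤ (D.xs : ℝ) / 16384)) := by
    rcases hk with hk | ⟨v, hv, a, b, hk⟩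
    · left; rw [hk]; norm_num
    · right
      exact ⟨v, hv, a, b, by rw [le_div_iff₀ (by norm_num)]; linarith⟩
  have := hDN α β V F I x z hC _ _ _ _ _ _ _ _ _ _ _ _ _ _ _ _ _ _ _ _ _ _ _ _ _ _ _ _ _ _ _ _ _ _
    f₀ f₁ h0 h1 hadj hX hZ hzp hxp hxm' hzc hE hEV hN hk' hA hB
  linarith

theorem cellX (h4 : Stm_CS4) (h6 : Stm_CS6) (h3 : Stm_CS3) (hDX : Stm_DX) (hC : Cfg V F I x z)
    (hX : ∀ v ∈ V, x v ≤ (13435 : ℝ) / 16384) {f₀ f₁ : β} (h0 : f₀ ∈ F) (h1 : f₁ ∈ F)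
    (hadj : AdjI V I f₀ f₁)
    (hmax : ∀ g ∈ F, g ≠ f₀ → z g ≤ z f₁) (c : CertE) (D : DomE) (hok : c.ok D = true)
    (hokX : c.okX D = true)
    (h0a : (D.z0a : ℝ) ≤ 16384 * z f₀) (h0b : 16384 * z f₀ ≤ (D.z0b : ℝ))
    (h1a : (D.z1a : ℝ) ≤ 16384 * z f₁) (h1b : 16384 * z f₁ ≤ (D.z1b : ℝ))
    (hxm : ∀ v ∈ V, I v f₀ → I v f₁ → (D.xm : ℝ) ≤ 16384 * x v)
    (hzc : ∀ h ∈ F, AdjI V I h f₀ → AdjI V I h f₁ → (D.zc : ℝ) / 16384 ≤ z h)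
    (hk : c.kap = 0 ∨ (∃ v ∈ V, I v f₀ ∧ I v f₁ ∧ 16384 * x v ≤ (D.xs : ℝ)))
    (hA : ¬ ExactAt V F I f₀ f₁) (hB : ExactAt V F I f₁ f₀) :
    14.966 ≤ Len V F I x := by
  have e0a : (D.z0a : ℝ) / 16384 ≤ z f₀ := by rw [div_le_iff₀ (by norm_num)]; linarith
  have e0b : z f₀ ≤ (D.z0b : ℝ) / 16384 := by rw [le_div_iff₀ (by norm_num)]; linarith
  have e1a : (D.z1a : ℝ) / 16384 ≤ z f₁ := by rw [div_le_iff₀ (by norm_num)]; linarith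
  have e1b : z f₁ ≤ (D.z1b : ℝ) / 16384 := by rw [le_div_iff₀ (by norm_num)]; linarith
  obtain ⟨hE, hEV⟩ := h6 c D hok (z f₀) (z f₁) e0a e0b (hC.z1 f₀ h0) e1a e1b
  have hval := h3 _ _ _ _ _ _ _ _ _ _ hokX (z f₀) (z f₁) e0a e0b e1a e1b
  have hz : z2OK D.z0a D.z1a D.z1b D.z2 = true ∧ 1 ≤ D.z0a ∧ 1 ≤ D.z1a ∧ zcOK D.z0b D.z1b D.zc D.xm = true := by
    unfold CertE.ok at hok
    simp only [Bool.and_eq_true, Nat.ble_eq] at hok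
    tauto
  have hzc1 : 1 ≤ D.zc ∧ 1 ≤ D.xm := by
    have := hz.2.2.2
    unfold zcOK at this
    simp only [Bool.and_eq_true, Nat.ble_eq] at this
    tauto
  have hZ := third_le h4 hC h0 h1 hadj.1 hmax hz.1 hz.2.1 hz.2.2.1 e0a e1a e1b
  have hzp : (0 : ℝ) < (D.zc : ℝ) / 16384 := by
    have : (1 : ℝ) ≤ (D.zc : ℝ) := by exact_mod_cast hzc1.1
    positivity
  have hxp : (0 : ℝ) < (D.xm : ℝ) / 16384 := by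
    have : (1 : ℝ) ≤ (D.xm : ℝ) := by exact_mod_cast hzc1.2
    positivity
  have hxm' : ∀ v ∈ V, I v f₀ → I v f₁ → (D.xm : ℝ) / 16384 ≤ x v := by
    intro v hv a b
    have := hxm v hv a b
    rw [div_le_iff₀ (by norm_num)]; linarith
  have hk' : ((c.kap : ℝ) / 10 ^ 6 = 0 ∨ (∃ v ∈ V, I v f₀ ∧ I v f₁ ∧ x v ≤ (D.xs : ℝ) / 16384)) := by
    rcases hk with hk | ⟨v, hv, a, b, hk⟩
    · left; rw [hk]; norm_num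
    · right
      exact ⟨v, hv, a, b, by rw [le_div_iff₀ (by norm_num)]; linarith⟩
  have := hDX α β V F I x z hC _ _ _ _ _ _ _ _ _ _ _ _ _ _ _ _ _ _ _ _ _ _ _ _ _ _ _ _
    f₀ f₁ h0 h1 hadj hX hZ hzp hxp hxm' hzc hE hEV hk' hA hB
  push_cast at hval
  linarith

end

end Pool.Agent.Lib.MP_af06f6_co
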