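import Mathlib
import Pool.Agent.Lib.MP_af06f6_co.D.Data.C0
import Pool.Agent.Lib.MP_af06f6_co.D.Data.C1
import Pool.Agent.Lib.MP_af06f6_co.D.Data.C2
import Pool.Agent.Lib.MP_af06f6_co.D.Data.C3
import Pool.Agent.Lib.MP_af06f6_co.D.Data.C4
import Pool.Agent.Lib.MP_af06f6_co.D.Data.C5
import Pool.Agent.Lib.MP_af06f6_co.D.Data.C6
import Pool.Agent.Lib.MP_af06f6_co.D.Data.C7
import Pool.Agent.Lib.MP_af06f6_co.D.Data.C8
import Pool.Agent.Lib.MP_af06f6_co.D.Data.C9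

/-! # MP_af06f6_co: the cells cover the parameter region

`Z₀ = 16384 z₀`, `Z₁ = 16384 z₁`, `M = 16384 min(x_C, x_C')`. -/

namespace Pool.Agent.Lib.MP_af06f6_co

/-- noncritical region: basic certificates -/
theorem coverB {P : Prop} {Z₀ Z₁ : ℝ} (h10 : Z₁ ≤ Z₀) (a0 : ((6800 : ℕ) : ℝ) ≤ Z₀) (b0 : Z₀ ≤ ((16384 : ℕ) : ℝ))
    (a1 : ((3438 : ℕ) : ℝ) ≤ Z₁) (hc : ¬ (((14752 : ℕ) : ℝ) ≤ Z₀ ∧ ((5009 : ℕ) : ℝ) ≤ Z₁ ∧ Z₁ ≤ ((9459 : ℕ) : ℝ)))
    (leaf : ∀ (c : CertB) (D : DomB), c.ok D = true → (D.z0a : ℝ) ≤ Z₀ → Z₀ ≤ (D.z0b : ℝ) →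
      (D.z1a : ℝ) ≤ Z₁ → Z₁ ≤ (D.z1b : ℝ) → c.kap = 0 → P) : P := by
  rcases le_total Z₁ ((5009 : ℕ) : ℝ) with h1 | h1
  · exact leaf certB0 domB0 okB0 a0 b0 a1 h1 rfl
  rcases le_total Z₀ ((14752 : ℕ) : ℝ) with h2 | h2
  · rcases le_total Z₁ ((9270 : ℕ) : ℝ) with h3 | h3
    · rcases le_total Z₀ ((10337 : ℕ) : ℝ) with h4 | h4
      · exact leaf certB1 domB1 okB1 a0 h4 h1 h3 rfl
      · rcases le_total Z₀ ((12403 : ℕ) : ℝ) with h5 | h5
        · exact leaf certB3 domB3 okB3 h4 h5 h1 h3 rfl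
        · rcases le_total Z₁ ((7039 : ℕ) : ℝ) with h6 | h6
          · exact leaf certB4 domB4 okB4 h5 h2 h1 h6 rfl
          · exact leaf certB5 domB5 okB5 h5 h2 h6 h3 rfl
    · rcases le_total Z₀ ((10337 : ℕ) : ℝ) with h4 | h4
      · exact leaf certB2 domB2 okB2 (le_trans h3 h10) h4 h3 (le_trans h10 h4) rfl
      · rcases le_total Z₁ ((11797 : ℕ) : ℝ) with h5 | h5
        · exact leaf certB6 domB6 okB6 h4 h2 h3 h5 rfl
        · exact leaf certB7 domB7 okB7 (le_trans h5 h10) h2 h5 (le_trans h10 h2) rfl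
  · have h9 : ((9459 : ℕ) : ℝ) ≤ Z₁ := by
      by_contra h
      exact hc ⟨h2, h1, le_of_lt (not_le.1 h)⟩
    rcases le_total Z₁ ((12572 : ℕ) : ℝ) with h3 | h3
    · rcases le_total Z₀ ((15548 : ℕ) : ℝ) with h4 | h4
      · exact leaf certB8 domB8 okB8 h2 h4 h9 h3 rfl
      · exact leaf certB10 domB10 okB10 h4 b0 h9 h3 rfl
    · exact leaf certB9 domB9 okB9 h2 b0 h3 (le_trans h10 b0) rfl

/-- critical region: basic certificates with bonus -/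
theorem coverS {P : Prop} {Z₀ Z₁ : ℝ} (a0 : ((14752 : ℕ) : ℝ) ≤ Z₀) (b0 : Z₀ ≤ ((16384 : ℕ) : ℝ))
    (a1 : ((5009 : ℕ) : ℝ) ≤ Z₁) (b1 : Z₁ ≤ ((9459 : ℕ) : ℝ))
    (leaf : ∀ (c : CertB) (D : DomB), c.ok D = true → (D.z0a : ℝ) ≤ Z₀ → Z₀ ≤ (D.z0b : ℝ) →
      (D.z1a : ℝ) ≤ Z₁ → Z₁ ≤ (D.z1b : ℝ) → D.xs = 2731 → P) : P := by
  rcases le_total Z₁ ((6578 : ℕ) : ℝ) with h1 | h1
  · rcases le_total Z₁ ((6044 : ℕ) : ℝ) with h2 | h2
    · exact leaf certS0 domS0 okS0 a0 b0 a1 h2 rfl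
    · exact leaf certS1 domS1 okS1 a0 b0 h2 h1 rfl
  · rcases le_total Z₁ ((7124 : ℕ) : ℝ) with h2 | h2
    · exact leaf certS2 domS2 okS2 a0 b0 h1 h2 rfl
    · exact leaf certS3 domS3 okS3 a0 b0 h2 b1 rfl

/-- critical region, both sides inexact, one common vertex small -/
theorem coverM {P : Prop} {Z₀ Z₁ : ℝ} (a0 : ((14752 : ℕ) : ℝ) ≤ Z₀) (b0 : Z₀ ≤ ((16384 : ℕ) : ℝ))
    (a1 : ((5009 : ℕ) : ℝ) ≤ Z₁) (b1 : Z₁ ≤ ((9459 : ℕ) : ℝ))
    (leaf : ∀ (c : CertE) (D : DomE), c.ok D = true → c.okN D = true → (D.z0a : ℝ) ≤ Z₀ → Z₀ ≤ (D.z0b : ℝ) →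
      (D.z1a : ℝ) ≤ Z₁ → Z₁ ≤ (D.z1b : ℝ) → D.xm = 2731 → D.xs = 3768 → P) : P := by
  rcases le_total Z₁ ((6044 : ℕ) : ℝ) with h1 | h1
  · exact leaf certM0 domM0 okM0 oknM0 a0 b0 a1 h1 rfl rfl
  · rcases le_total Z₁ ((7124 : ℕ) : ℝ) with h2 | h2
    · exact leaf certM1 domM1 okM1 oknM1 a0 b0 h1 h2 rfl rfl
    · exact leaf certM2 domM2 okM2 oknM2 a0 b0 h2 b1 rfl rfl

/-- critical region, both sides inexact, both common vertices large -/
theorem coverL {P : Prop} {Z₀ Z₁ : ℝ} (a0 : ((14752 : ℕ) : ℝ) ≤ Z₀) (b0 : Z₀ ≤ ((16384 : ℕ) : ℝ))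
    (a1 : ((5009 : ℕ) : ℝ) ≤ Z₁) (b1 : Z₁ ≤ ((9459 : ℕ) : ℝ))
    (leaf : ∀ (c : CertE) (D : DomE), c.ok D = true → c.okN D = true → (D.z0a : ℝ) ≤ Z₀ → Z₀ ≤ (D.z0b : ℝ) →
      (D.z1a : ℝ) ≤ Z₁ → Z₁ ≤ (D.z1b : ℝ) → D.xm = 3768 → c.kap = 0 → P) : P := by
  rcases le_total Z₁ ((7124 : ℕ) : ℝ) with h1 | h1
  · rcases le_total Z₁ ((6044 : ℕ) : ℝ) with h2 | h2
    · exact leaf certL0 domL0 okL0 oknL0 a0 b0 a1 h2 rfl rfl
    · rcases le_total Z₁ ((6578 : ℕ) : ℝ) with h3 | h3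
      · exact leaf certL1 domL1 okL1 oknL1 a0 b0 h2 h3 rfl rfl
      · exact leaf certL2 domL2 okL2 oknL2 a0 b0 h3 h1 rfl rfl
  · rcases le_total Z₁ ((8258 : ℕ) : ℝ) with h2 | h2
    · rcases le_total Z₀ ((15548 : ℕ) : ℝ) with h3 | h3
      · exact leaf certL3 domL3 okL3 oknL3 a0 h3 h1 h2 rfl rfl
      · exact leaf certL4 domL4 okL4 oknL4 h3 b0 h1 h2 rfl rfl
    · exact leaf certL5 domL5 okL5 oknL5 a0 b0 h2 b1 rfl rfl

/-- critical region, `f₁` side exact, `f₀` side inexact -/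
theorem coverX {P : Prop} {Z₀ Z₁ M : ℝ} (a0 : ((14752 : ℕ) : ℝ) ≤ Z₀) (b0 : Z₀ ≤ ((16384 : ℕ) : ℝ))
    (a1 : ((6044 : ℕ) : ℝ) ≤ Z₁) (b1 : Z₁ ≤ ((9459 : ℕ) : ℝ)) (am : ((2731 : ℕ) : ℝ) ≤ M) (bm : M ≤ ((13435 : ℕ) : ℝ))
    (leaf : ∀ (c : CertE) (D : DomE), c.ok D = true → c.okX D = true → (D.z0a : ℝ) ≤ Z₀ → Z₀ ≤ (D.z0b : ℝ) →
      (D.z1a : ℝ) ≤ Z₁ → Z₁ ≤ (D.z1b : ℝ) → (D.xm : ℝ) ≤ M → (c.kap = 0 ∨ M ≤ (D.xs : ℝ)) → P) : P := by
  rcases le_total Z₁ ((6620 : ℕ) : ℝ) with h1 | h1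
  · rcases le_total M ((5571 : ℕ) : ℝ) with h2 | h2
    · rcases le_total M ((4588 : ℕ) : ℝ) with h3 | h3
      · rcases le_total Z₀ ((15548 : ℕ) : ℝ) with h4 | h4
        · exact leaf certX0 domX0 okX0 okxX0 a0 h4 a1 h1 am (Or.inr h3)
        · rcases le_total M ((3659 : ℕ) : ℝ) with h5 | h5
          · exact leaf certX1 domX1 okX1 okxX1 h4 b0 a1 h1 am (Or.inr h5)
          · rcases le_total Z₀ ((15961 : ℕ) : ℝ) with h6 | h6
            · exact leaf certX2 domX2 okX2 okxX2 h4 h6 a1 h1 h5 (Or.inr h3)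
            · rcases le_total Z₁ ((6330 : ℕ) : ℝ) with h7 | h7
              · exact leaf certX3 domX3 okX3 okxX3 h6 b0 a1 h7 h5 (Or.inr h3)
              · exact leaf certX18 domX18 okX18 okxX18 h6 b0 h7 h1 h5 (Or.inr h3)
      · rcases le_total Z₀ ((16171 : ℕ) : ℝ) with h8 | h8
        · rcases le_total Z₀ ((15961 : ℕ) : ℝ) with h9 | h9
          · rcases le_total Z₀ ((15548 : ℕ) : ℝ) with h10 | h10
            · exact leaf certX4 domX4 okX4 okxX4 a0 h10 a1 h1 h3 (Or.inr h2)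
            · exact leaf certX5 domX5 okX5 okxX5 h10 h9 a1 h1 h3 (Or.inr h2)
          · rcases le_total Z₁ ((6330 : ℕ) : ℝ) with h11 | h11
            · rcases le_total Z₁ ((6187 : ℕ) : ℝ) with h12 | h12
              · exact leaf certX6 domX6 okX6 okxX6 h9 h8 a1 h12 h3 (Or.inr h2)
              · exact leaf certX12 domX12 okX12 okxX12 h9 h8 h12 h11 h3 (Or.inr h2)
            · exact leaf certX19 domX19 okX19 okxX19 h9 h8 h11 h1 h3 (Or.inr h2)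
        · rcases le_total Z₁ ((6330 : ℕ) : ℝ) with h13 | h13
          · rcases le_total Z₁ ((6187 : ℕ) : ℝ) with h14 | h14
            · rcases le_total M ((5079 : ℕ) : ℝ) with h15 | h15
              · exact leaf certX7 domX7 okX7 okxX7 h8 b0 a1 h14 h3 (Or.inr h15)
              · exact leaf certX8 domX8 okX8 okxX8 h8 b0 a1 h14 h15 (Or.inr h2)
            · rcases le_total M ((5079 : ℕ) : ℝ) with h16 | h16
              · exact leaf certX13 domX13 okX13 okxX13 h8 b0 h14 h13 h3 (Or.inr h16)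
              · exact leaf certX14 domX14 okX14 okxX14 h8 b0 h14 h13 h16 (Or.inr h2)
          · rcases le_total Z₁ ((6474 : ℕ) : ℝ) with h17 | h17
            · exact leaf certX20 domX20 okX20 okxX20 h8 b0 h13 h17 h3 (Or.inr h2)
            · exact leaf certX24 domX24 okX24 okxX24 h8 b0 h17 h1 h3 (Or.inr h2)
    · rcases le_total Z₀ ((15961 : ℕ) : ℝ) with h18 | h18
      · rcases le_total Z₀ ((15548 : ℕ) : ℝ) with h19 | h19
        · exact leaf certX9 domX9 okX9 okxX9 a0 h19 a1 h1 h2 (Or.inl rfl)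
        · rcases le_total Z₁ ((6330 : ℕ) : ℝ) with h20 | h20
          · exact leaf certX10 domX10 okX10 okxX10 h19 h18 a1 h20 h2 (Or.inl rfl)
          · exact leaf certX21 domX21 okX21 okxX21 h19 h18 h20 h1 h2 (Or.inl rfl)
      · rcases le_total Z₁ ((6330 : ℕ) : ℝ) with h21 | h21
        · rcases le_total Z₁ ((6187 : ℕ) : ℝ) with h22 | h22
          · exact leaf certX11 domX11 okX11 okxX11 h18 b0 a1 h22 h2 (Or.inl rfl)
          · rcases le_total Z₀ ((16171 : ℕ) : ℝ) with h23 | h23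
            · exact leaf certX15 domX15 okX15 okxX15 h18 h23 h22 h21 h2 (Or.inl rfl)
            · rcases le_total M ((6554 : ℕ) : ℝ) with h24 | h24
              · exact leaf certX16 domX16 okX16 okxX16 h23 b0 h22 h21 h2 (Or.inr h24)
              · exact leaf certX17 domX17 okX17 okxX17 h23 b0 h22 h21 h24 (Or.inl rfl)
        · rcases le_total Z₀ ((16171 : ℕ) : ℝ) with h25 | h25
          · exact leaf certX22 domX22 okX22 okxX22 h18 h25 h21 h1 h2 (Or.inl rfl)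
          · rcases le_total Z₁ ((6474 : ℕ) : ℝ) with h26 | h26
            · exact leaf certX23 domX23 okX23 okxX23 h25 b0 h21 h26 h2 (Or.inl rfl)
            · exact leaf certX25 domX25 okX25 okxX25 h25 b0 h26 h1 h2 (Or.inl rfl)
  · rcases le_total M ((4588 : ℕ) : ℝ) with h27 | h27
    · rcases le_total Z₁ ((7815 : ℕ) : ℝ) with h28 | h28
      · rcases le_total M ((3659 : ℕ) : ℝ) with h29 | h29
        · exact leaf certX26 domX26 okX26 okxX26 a0 b0 h1 h28 am (Or.inr h29)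
        · rcases le_total Z₀ ((15548 : ℕ) : ℝ) with h30 | h30
          · exact leaf certX27 domX27 okX27 okxX27 a0 h30 h1 h28 h29 (Or.inr h27)
          · rcases le_total M ((4123 : ℕ) : ℝ) with h31 | h31
            · exact leaf certX28 domX28 okX28 okxX28 h30 b0 h1 h28 h29 (Or.inr h31)
            · exact leaf certX29 domX29 okX29 okxX29 h30 b0 h1 h28 h31 (Or.inr h27)
      · exact leaf certX38 domX38 okX38 okxX38 a0 b0 h28 b1 am (Or.inr h27)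
    · rcases le_total Z₁ ((7815 : ℕ) : ℝ) with h32 | h32
      · rcases le_total Z₀ ((15961 : ℕ) : ℝ) with h33 | h33
        · rcases le_total Z₀ ((15548 : ℕ) : ℝ) with h34 | h34
          · rcases le_total M ((5571 : ℕ) : ℝ) with h35 | h35
            · exact leaf certX30 domX30 okX30 okxX30 a0 h34 h1 h32 h27 (Or.inr h35)
            · exact leaf certX34 domX34 okX34 okxX34 a0 h34 h1 h32 h35 (Or.inl rfl)
          · rcases le_total M ((5571 : ℕ) : ℝ) with h36 | h36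
            · exact leaf certX31 domX31 okX31 okxX31 h34 h33 h1 h32 h27 (Or.inr h36)
            · exact leaf certX35 domX35 okX35 okxX35 h34 h33 h1 h32 h36 (Or.inl rfl)
        · rcases le_total M ((5571 : ℕ) : ℝ) with h37 | h37
          · rcases le_total Z₁ ((7209 : ℕ) : ℝ) with h38 | h38
            · rcases le_total M ((5079 : ℕ) : ℝ) with h39 | h39
              · exact leaf certX32 domX32 okX32 okxX32 h33 b0 h1 h38 h27 (Or.inr h39)
              · exact leaf certX33 domX33 okX33 okxX33 h33 b0 h1 h38 h39 (Or.inr h37)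
            · exact leaf certX37 domX37 okX37 okxX37 h33 b0 h38 h32 h27 (Or.inr h37)
          · exact leaf certX36 domX36 okX36 okxX36 h33 b0 h1 h32 h37 (Or.inl rfl)
      · exact leaf certX39 domX39 okX39 okxX39 a0 b0 h32 b1 h27 (Or.inl rfl)

end Pool.Agent.Lib.MP_af06f6_co
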