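import Mathlib
import Pool.Agent.Lib.MP_af06f6_co.Fin.Cells
import Pool.Agent.Lib.MP_af06f6_co.Fin.Cover
import Pool.Agent.Lib.MP_af06f6_co.G.Swap

/-! # MP_af06f6_co: the lower bound for a midscribed dual pair -/

open Set

namespace Pool.Agent.Lib.MP_af06f6_co

/-- the incidence relation of a dual pair -/
abbrev I3 : E3 → E3 → Prop := fun v f => inner ℝ v f = (1 : ℝ)

lemma toAdj {V F : Finset E3} {f g : E3} (hf : f ∈ F) (hg : g ∈ F) (h : AdjI V I3 f g) : Adj F V f g :=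
  ⟨hf, hg, h.1, h.2⟩

lemma inv_tl {g : E3} (h : 1 < ‖g‖) : 1 / tl g = (1 - hx g ^ 2) / (2 * hx g) := by
  rw [tl_eq_hx h, one_div_div]

/-- lower bound `zc` for the faces adjacent to both `f₀` and `f₁` -/
lemma zc_le (h8 : Stm_CS8) (hD5 : Stm_D5) {V F : Finset E3} (hM : Mid V F) {f₀ f₁ : E3} (h0 : f₀ ∈ F)
    (h1 : f₁ ∈ F) (hadj : AdjI V I3 f₀ f₁) (D : DomE) (hz : zcOK D.z0b D.z1b D.zc D.xm = true)
    (h0b : 16384 * hx f₀ ≤ (D.z0b : ℝ)) (h1b : 16384 * hx f₁ ≤ (D.z1b : ℝ))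
    (hxm : ∀ v ∈ V, I3 v f₀ → I3 v f₁ → (D.xm : ℝ) ≤ 16384 * hx v) :
    ∀ h ∈ F, AdjI V I3 h f₀ → AdjI V I3 h f₁ → (D.zc : ℝ) / 16384 ≤ hx h := by
  intro g hg hg0 hg1
  have hz' : 1 ≤ D.xm ∧ D.xm ≤ 13435 := by
    unfold zcOK at hz
    simp only [Bool.and_eq_true, Nat.ble_eq] at hz
    tauto
  have n0 := hM.one_lt_F f₀ h0
  have n1 := hM.one_lt_F f₁ h1
  have ng := hM.one_lt_F g hg
  have xm1 : (1 : ℝ) ≤ (D.xm : ℝ) := by exact_mod_cast hz'.1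
  have xm2 : (D.xm : ℝ) ≤ 13435 := by exact_mod_cast hz'.2
  have key := hD5 V F hM f₀ f₁ (toAdj h0 h1 hadj) ((D.xm : ℝ) / 16384) (by positivity)
    (by rw [div_lt_iff₀ (by norm_num)]; linarith)
    (fun v hv a b => by
      have := hxm v hv a b
      rw [div_le_iff₀ (by norm_num)]; linarith) g (toAdj hg h0 hg0) (toAdj hg h1 hg1)
  have e : 1 / (tl f₀ * tl f₁) = (1 / tl f₀) * (1 / tl f₁) := by
    rw [one_div_mul_one_div]
  rw [e, inv_tl n0, inv_tl n1, inv_tl ng] at key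
  exact h8 D.z0b D.z1b D.zc D.xm hz (hx f₀) (hx f₁) (hx g) (hx_pos n0) (hx_lt_one n0) (hx_pos n1)
    (hx_lt_one n1) (by rw [le_div_iff₀ (by norm_num)]; linarith)
    (by rw [le_div_iff₀ (by norm_num)]; linarith) (hx_pos ng) (hx_lt_one ng) key

lemma tl_mono {f g : E3} (hf : 1 < ‖f‖) (hg : 1 < ‖g‖) (h : hx f ≤ hx g) : tl f ≤ tl g := by
  rw [tl_eq_hx hf, tl_eq_hx hg]
  have a := hx_pos hf
  have b := hx_lt_one hf
  have c := hx_lt_one hg
  have d := hx_pos hg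
  have e1 : 0 < 1 - hx f ^ 2 := by nlinarith
  have e2 : 0 < 1 - hx g ^ 2 := by nlinarith
  rw [div_le_div_iff₀ e1 e2]
  nlinarith [mul_nonneg a.le d.le]

/-- if one side is exact then `σ₁` is not too small -/
lemma z1_large {f₀ f₁ : E3} (n0 : 1 < ‖f₀‖) (n1 : 1 < ‖f₁‖) (h0 : (14752 : ℝ) ≤ 16384 * hx f₀)
    (hH : 3 / 4 ≤ hh f₀ f₁ ^ 2 + yy f₀ f₁ ^ 2) : (6044 : ℝ) ≤ 16384 * hx f₁ := by
  by_contra hcon
  push Not at hcon
  have a0 := hx_pos n0
  have b0 := hx_lt_one n0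
  have a1 := hx_pos n1
  have b1 := hx_lt_one n1
  have e0 : 0 < 1 - hx f₀ ^ 2 := by nlinarith
  have e1 : 0 < 1 - hx f₁ ^ 2 := by nlinarith
  have t0 : 0 < tl f₀ := by rw [tl_eq_hx n0]; positivity
  have t1 : 0 < tl f₁ := by rw [tl_eq_hx n1]; positivity
  set c0 := 1 / tl f₀ with hc0
  set c1 := 1 / tl f₁ with hc1
  have pc0 : 0 < c0 := by positivity
  have pc1 : 0 < c1 := by positivity
  have i0 : c0 = (1 - hx f₀ ^ 2) / (2 * hx f₀) := inv_tl n0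
  have i1 : c1 = (1 - hx f₁ ^ 2) / (2 * hx f₁) := inv_tl n1
  have u0 : c0 ≤ 0.1052 := by
    rw [i0, div_le_iff₀ (by positivity)]
    nlinarith
  have u1 : 1.17 ≤ c1 := by
    rw [i1, le_div_iff₀ (by positivity)]
    nlinarith
  have eh : hh f₀ f₁ = 1 / (c0 + c1) := by
    unfold hh
    rw [hc0, hc1]
    field_simp
    ring
  have ey : yy f₀ f₁ = c0 / (c0 + c1) := by
    unfold yy
    rw [hc0, hc1]
    field_simp
    ring
  rw [eh, ey, div_pow, div_pow, ← add_div, le_div_iff₀ (by positivity)] at hH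
  nlinarith

/-- **The lower bound for a midscribed dual pair.** -/
theorem mid_bound (hE1 : Stm_E1) (hT1 : Stm_T1) (hT2 : Stm_T2) (hT3 : Stm_T3) (hDB : Stm_DB)
    (hDN : Stm_DN) (hDX : Stm_DX) (hX0 : Stm_X0) (hX9 : Stm_X9) (hD5 : Stm_D5)
    (h3 : Stm_CS3) (h4 : Stm_CS4) (h5 : Stm_CS5) (h6 : Stm_CS6) (h7 : Stm_CS7) (h8 : Stm_CS8)
    (V F : Finset E3) (hM : Mid V F) :
    (∃ w' : ℝ, 1 < w' ∧ FF w' < Len V F I3 hx) ∨ 14.966 ≤ Len V F I3 hx := by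
  classical
  have hC : Cfg V F I3 hx hx := hE1 V F hM
  by_cases c1 : ∃ v ∈ V, (13435 : ℝ) / 16384 ≤ hx v
  · exact Or.inr (hT1 E3 E3 V F I3 hx hx hC c1)
  push Not at c1
  have hX : ∀ v ∈ V, hx v ≤ (13435 : ℝ) / 16384 := fun v hv => (c1 v hv).le
  obtain ⟨f₀, h0, hmax0⟩ := Finset.exists_max_image F hx hM.neF
  obtain ⟨v₀, hv₀⟩ := hM.neV
  have hcard : 3 ≤ F.card := le_trans (hC.deg v₀ hv₀) (Finset.card_le_card (Finset.filter_subset _ _))
  have hne' : (F.erase f₀).Nonempty := by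
    rw [← Finset.card_pos, Finset.card_erase_of_mem h0]
    omega
  obtain ⟨f₁, h1', hmax1⟩ := Finset.exists_max_image (F.erase f₀) hx hne'
  have h1 : f₁ ∈ F := Finset.mem_of_mem_erase h1'
  have hne : f₀ ≠ f₁ := (Finset.ne_of_mem_erase h1').symm
  have hmax : ∀ g ∈ F, g ≠ f₀ → hx g ≤ hx f₁ := fun g hg hgf => hmax1 g (Finset.mem_erase.2 ⟨hgf, hg⟩)
  have h10 : hx f₁ ≤ hx f₀ := hmax0 f₁ h1
  have n0 := hM.one_lt_F f₀ h0
  have n1 := hM.one_lt_F f₁ h1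
  by_cases c2 : hx f₀ ≤ (6800 : ℝ) / 16384
  · exact Or.inr (hT2 E3 E3 V F I3 hx hx hC (fun f hf => le_trans (hmax0 f hf) c2))
  by_cases c3 : hx f₁ ≤ (3438 : ℝ) / 16384
  · exact Or.inr (hT3 E3 E3 V F I3 hx hx hC f₀ h0 (fun f hf hff => le_trans (hmax f hf hff) c3))
  push Not at c2 c3
  have a0 : ((6800 : ℕ) : ℝ) ≤ 16384 * hx f₀ := by
    rw [div_lt_iff₀ (by norm_num)] at c2
    push_cast; linarith
  have b0 : 16384 * hx f₀ ≤ ((16384 : ℕ) : ℝ) := by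
    have := hx_lt_one n0
    push_cast; linarith
  have a1 : ((3438 : ℕ) : ℝ) ≤ 16384 * hx f₁ := by
    rw [div_lt_iff₀ (by norm_num)] at c3
    push_cast; linarith
  by_cases crit : ((14752 : ℕ) : ℝ) ≤ 16384 * hx f₀ ∧ ((5009 : ℕ) : ℝ) ≤ 16384 * hx f₁ ∧
      16384 * hx f₁ ≤ ((9459 : ℕ) : ℝ)
  swap
  · right
    refine coverB (Z₀ := 16384 * hx f₀) (Z₁ := 16384 * hx f₁) (by linarith) a0 b0 a1 crit ?_
    intro c D hok p q r s hk
    exact cellB h4 h5 hDB hC hX h0 h1 hne hmax c D hok p q r s (Or.inl hk)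
  obtain ⟨k0, k1, k2⟩ := crit
  by_cases hS : AdjI V I3 f₀ f₁ ∧ ∀ v ∈ V, I3 v f₀ → I3 v f₁ → (2731 : ℝ) < 16384 * hx v
  swap
  · right
    refine coverS k0 b0 k1 k2 ?_
    intro c D hok p q r s hxs
    refine cellB h4 h5 hDB hC hX h0 h1 hne hmax c D hok p q r s (Or.inr ?_)
    by_cases hadj : AdjI V I3 f₀ f₁
    · left
      by_contra hcon
      apply hS
      refine ⟨hadj, fun v hv a b => ?_⟩
      by_contra hlt
      push Not at hlt
      exact hcon ⟨v, hv, a, b, by rw [hxs]; push_cast; exact hlt⟩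
    · right; exact hadj
  obtain ⟨hadj, hbig⟩ := hS
  have hadj3 : Adj F V f₀ f₁ := toAdj h0 h1 hadj
  have k0' : (14752 : ℝ) / 16384 ≤ hx f₀ := by
    rw [div_le_iff₀ (by norm_num)]; push_cast at k0; linarith
  have k2' : hx f₁ ≤ (9459 : ℝ) / 16384 := by
    rw [le_div_iff₀ (by norm_num)]; push_cast at k2; linarith
  by_cases hA : ExactAt V F I3 f₀ f₁
  · exact hX9 V F hM hC f₀ f₁ hadj3 k0' k2' hmax hA
  right
  have zcz : ∀ (c : CertE) (D : DomE), c.ok D = true → zcOK D.z0b D.z1b D.zc D.xm = true := by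
    intro c D hok
    unfold CertE.ok at hok
    simp only [Bool.and_eq_true, Nat.ble_eq] at hok
    tauto
  by_cases hB : ExactAt V F I3 f₁ f₀
  · -- type X
    have hH := hX0 V F hM hC f₀ f₁ hadj3 (Or.inr hB)
      (fun g hg hgf => tl_mono (hM.one_lt_F g hg) n1 (hmax g hg hgf))
    have hz1 : ((6044 : ℕ) : ℝ) ≤ 16384 * hx f₁ := by
      have := z1_large n0 n1 (by push_cast at k0; exact k0) hH
      push_cast; exact this
    have hcomm : (V.filter (fun v => I3 v f₀ ∧ I3 v f₁)).Nonempty := by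
      obtain ⟨-, v, hv, w, hw, -, p, q, -, -⟩ := hadj
      exact ⟨v, Finset.mem_filter.2 ⟨hv, p, q⟩⟩
    obtain ⟨C, hCm, hmin⟩ := Finset.exists_min_image _ hx hcomm
    obtain ⟨hCV, hC0, hC1⟩ := Finset.mem_filter.1 hCm
    have am : ((2731 : ℕ) : ℝ) ≤ 16384 * hx C := by
      have := hbig C hCV hC0 hC1
      push_cast; linarith
    have bm : 16384 * hx C ≤ ((13435 : ℕ) : ℝ) := by
      have := hX C hCV
      rw [le_div_iff₀ (by norm_num)] at this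
      push_cast; linarith
    refine coverX (M := 16384 * hx C) k0 b0 hz1 k2 am bm ?_
    intro c D hok hokX p q r s hm hk
    have hxm : ∀ v ∈ V, I3 v f₀ → I3 v f₁ → (D.xm : ℝ) ≤ 16384 * hx v := by
      intro v hv a b
      have := hmin v (Finset.mem_filter.2 ⟨hv, a, b⟩)
      linarith
    refine cellX h4 h6 h3 hDX hC hX h0 h1 hadj hmax c D hok hokX p q r s hxm
      (zc_le h8 hD5 hM h0 h1 hadj D (zcz c D hok) q s hxm) ?_ hA hB
    rcases hk with hk | hk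
    · exact Or.inl hk
    · exact Or.inr ⟨C, hCV, hC0, hC1, hk⟩
  · by_cases hsm : ∃ v ∈ V, I3 v f₀ ∧ I3 v f₁ ∧ 16384 * hx v ≤ (3768 : ℝ)
    · refine coverM k0 b0 k1 k2 ?_
      intro c D hok hokN p q r s hm hxs
      have hxm : ∀ v ∈ V, I3 v f₀ → I3 v f₁ → (D.xm : ℝ) ≤ 16384 * hx v := by
        intro v hv a b
        have := hbig v hv a b
        rw [hm]; push_cast; linarith
      refine cellN h4 h6 h7 hDN hC hX h0 h1 hadj hmax c D hok hokN p q r s hxm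
        (zc_le h8 hD5 hM h0 h1 hadj D (zcz c D hok) q s hxm) (Or.inr ?_) hA hB
      obtain ⟨v, hv, a, b, hk⟩ := hsm
      exact ⟨v, hv, a, b, by rw [hxs]; push_cast; exact hk⟩
    · push Not at hsm
      refine coverL k0 b0 k1 k2 ?_
      intro c D hok hokN p q r s hm hkap
      have hxm : ∀ v ∈ V, I3 v f₀ → I3 v f₁ → (D.xm : ℝ) ≤ 16384 * hx v := by
        intro v hv a b
        have := hsm v hv a b
        rw [hm]; push_cast; linarith
      exact cellN h4 h6 h7 hDN hC hX h0 h1 hadj hmax c D hok hokN p q r s hxm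
        (zc_le h8 hD5 hM h0 h1 hadj D (zcz c D hok) q s hxm) (Or.inl hkap) hA hB

end Pool.Agent.Lib.MP_af06f6_co
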