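import Mathlib
import Pool.Agent.Lib.MP_af06f6_co.X.Stm

/-! # MP_af06f6_co: the minimiser of `FF` as an algebraic number -/

open Set

namespace Pool.Agent.Lib.MP_af06f6_co

/-- the sextic -/
noncomputable def sextic (W : ℝ) : ℝ := W ^ 6 - 23 * W ^ 4 - 24 * W ^ 3 - 605 * W ^ 2 - 6312 * W + 819

lemma hasDerivAt_FF {w : ℝ} (hw : 1 < w) :
    HasDerivAt FF (2 + (18 * (w ^ 2 + 3) - 18 * w * (2 * w)) / (w ^ 2 + 3) ^ 2 +
      (6 * (w ^ 2 - 1) - 6 * w * (2 * w)) / (w ^ 2 - 1) ^ 2 +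
      (12 * (w ^ 2 + 7) - 12 * w * (2 * w)) / (w ^ 2 + 7) ^ 2) w := by
  have h1 : w ^ 2 + 3 ≠ 0 := by positivity
  have h2 : w ^ 2 - 1 ≠ 0 := by nlinarith
  have h3 : w ^ 2 + 7 ≠ 0 := by positivity
  have hsq : HasDerivAt (fun x : ℝ => x ^ 2) (2 * w) w := by
    simpa using hasDerivAt_pow 2 w
  have l : ∀ k : ℝ, HasDerivAt (fun x : ℝ => k * x) k w := fun k => by
    simpa using (hasDerivAt_id w).const_mul k
  have e1 := (l 18).div (hsq.add_const 3) h1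
  have e2 := (l 6).div (hsq.sub_const 1) h2
  have e3 := (l 12).div (hsq.add_const 7) h3
  exact (((l 2).add e1).add e2).add e3

/-- a minimiser of `FF` on `(1,∞)` satisfies the sextic equation -/
theorem sextic_of_min {w₀ : ℝ} (h : 1 < w₀) (hmin : ∀ w : ℝ, 1 < w → FF w₀ ≤ FF w) :
    sextic (w₀ ^ 2) = 0 := by
  have hloc : IsLocalMin FF w₀ := by
    filter_upwards [lt_mem_nhds h] with w hw using hmin w hw
  have hd := hloc.hasDerivAt_eq_zero (hasDerivAt_FF h)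
  have h1 : w₀ ^ 2 + 3 ≠ 0 := by positivity
  have h2 : w₀ ^ 2 - 1 ≠ 0 := by nlinarith
  have h3 : w₀ ^ 2 + 7 ≠ 0 := by positivity
  field_simp at hd
  unfold sextic
  nlinarith [hd]

/-- the sextic has at most one root in `(1,∞)` -/
theorem sextic_unique {a b : ℝ} (ha : 1 < a) (hb : 1 < b) (h1 : sextic a = 0) (h2 : sextic b = 0) : a = b := by
  -- in terms of the inverses
  have key : ∀ u v : ℝ, 0 < u → u < v → v < 1 →
      1 - 23 * u ^ 2 - 24 * u ^ 3 - 605 * u ^ 4 - 6312 * u ^ 5 + 819 * u ^ 6 = 0 →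
      1 - 23 * v ^ 2 - 24 * v ^ 3 - 605 * v ^ 4 - 6312 * v ^ 5 + 819 * v ^ 6 = 0 → False := by
    intro u v hu huv hv e1 e2
    have hv0 : 0 < v := lt_trans hu huv
    have p2 : u ^ 2 ≤ v ^ 2 := pow_le_pow_left₀ hu.le huv.le 2
    have p3 : u ^ 3 ≤ v ^ 3 := pow_le_pow_left₀ hu.le huv.le 3
    have p4 : u ^ 4 ≤ v ^ 4 := pow_le_pow_left₀ hu.le huv.le 4
    have p5 : u ^ 5 ≤ v ^ 5 := pow_le_pow_left₀ hu.le huv.le 5
    have q2 : u ^ 2 < v ^ 2 := pow_lt_pow_left₀ huv hu.le (by norm_num)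
    -- v^6 - u^6 ≤ 6 v^5 (v-u) ≤ 6 v^4 (v - u) ≤ 6 (v^5 - u^5)
    have s1 : v ^ 6 - u ^ 6 = (v - u) * (v ^ 5 + v ^ 4 * u + v ^ 3 * u ^ 2 + v ^ 2 * u ^ 3 + v * u ^ 4 + u ^ 5) := by ring
    have s2 : v ^ 5 - u ^ 5 = (v - u) * (v ^ 4 + v ^ 3 * u + v ^ 2 * u ^ 2 + v * u ^ 3 + u ^ 4) := by ring
    have t1 : v ^ 5 ≤ v ^ 4 := by
      have := pow_le_pow_of_le_one hv0.le hv.le (show 4 ≤ 5 by norm_num)
      simpa using this
    have t2 : v ^ 4 * u ≤ v ^ 4 := by nlinarith [pow_pos hv0 4]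
    have t3 : v ^ 3 * u ^ 2 ≤ v ^ 4 := by
      have : u ^ 2 ≤ v := by nlinarith
      nlinarith [pow_pos hv0 3]
    have t4 : v ^ 2 * u ^ 3 ≤ v ^ 4 := by
      have : u ^ 3 ≤ v ^ 2 := by nlinarith [pow_pos hu 2]
      nlinarith [pow_pos hv0 2]
    have t5 : v * u ^ 4 ≤ v ^ 4 := by
      have : u ^ 4 ≤ v ^ 3 := by
        have : u ^ 4 ≤ u ^ 3 := by
          have := pow_le_pow_of_le_one hu.le (lt_trans huv hv).le (show 3 ≤ 4 by norm_num)
          simpa using this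
        linarith
      nlinarith
    have t6 : u ^ 5 ≤ v ^ 4 := by
      have : u ^ 5 ≤ u ^ 4 := by
        have := pow_le_pow_of_le_one hu.le (lt_trans huv hv).le (show 4 ≤ 5 by norm_num)
        simpa using this
      linarith
    have hd : 0 < v - u := sub_pos.2 huv
    have r1 : v ^ 6 - u ^ 6 ≤ 6 * (v ^ 5 - u ^ 5) := by
      rw [s1, s2]
      have : v ^ 5 + v ^ 4 * u + v ^ 3 * u ^ 2 + v ^ 2 * u ^ 3 + v * u ^ 4 + u ^ 5 ≤
          6 * (v ^ 4 + v ^ 3 * u + v ^ 2 * u ^ 2 + v * u ^ 3 + u ^ 4) := by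
        have c1 : 0 ≤ v ^ 3 * u := by positivity
        have c2 : 0 ≤ v ^ 2 * u ^ 2 := by positivity
        have c3 : 0 ≤ v * u ^ 3 := by positivity
        have c4 : 0 ≤ u ^ 4 := by positivity
        linarith
      nlinarith
    nlinarith
  have inv_eq : ∀ c : ℝ, 1 < c → sextic c = 0 →
      1 - 23 * (1 / c) ^ 2 - 24 * (1 / c) ^ 3 - 605 * (1 / c) ^ 4 - 6312 * (1 / c) ^ 5 + 819 * (1 / c) ^ 6 = 0 := by
    intro c hc h
    have hc0 : c ≠ 0 := by linarith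
    have : 1 - 23 * (1 / c) ^ 2 - 24 * (1 / c) ^ 3 - 605 * (1 / c) ^ 4 - 6312 * (1 / c) ^ 5 + 819 * (1 / c) ^ 6
        = sextic c / c ^ 6 := by
      unfold sextic
      field_simp
    rw [this, h, zero_div]
  have ia : 0 < 1 / a := by positivity
  have ib : 0 < 1 / b := by positivity
  have ja : 1 / a < 1 := by rw [div_lt_one (by linarith)]; exact ha
  have jb : 1 / b < 1 := by rw [div_lt_one (by linarith)]; exact hb
  rcases lt_trichotomy (1 / a) (1 / b) with h | h | h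
  · exact (key _ _ ia h jb (inv_eq a ha h1) (inv_eq b hb h2)).elim
  · have := congrArg (fun t => 1 / t) h
    simpa using this
  · exact (key _ _ ib h ja (inv_eq b hb h2) (inv_eq a ha h1)).elim

end Pool.Agent.Lib.MP_af06f6_co
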