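import Mathlib
import Pool.Agent.Lib.MP_af06f6_co.Defs

/-! # MP_af06f6_co: translation invariance -/

open Set Metric

namespace Pool.Agent.Lib.MP_af06f6_co

/-- translation by `a` -/
def trn (a : E3) (P : Set E3) : Set E3 := (fun x => x + a) '' P

lemma mem_trn {a : E3} {P : Set E3} {x : E3} : x ∈ trn a P ↔ x - a ∈ P := by
  unfold trn
  constructor
  · rintro ⟨y, hy, rfl⟩
    simpa using hy
  · intro h
    exact ⟨x - a, h, by simp⟩

lemma trn_trn (a b : E3) (P : Set E3) : trn b (trn a P) = trn (a + b) P := by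
  ext x
  rw [mem_trn, mem_trn, mem_trn, sub_sub, add_comm b a]

lemma trn_zero (P : Set E3) : trn 0 P = P := by
  ext x
  rw [mem_trn, sub_zero]

lemma trn_injective (a : E3) : Function.Injective (trn a) := by
  intro P Q h
  have := congrArg (trn (-a)) h
  rwa [trn_trn, trn_trn, add_neg_cancel, trn_zero, trn_zero] at this

lemma trn_segment (a p q : E3) : trn a (segment ℝ p q) = segment ℝ (p + a) (q + a) := by
  unfold trn
  have := segment_translate_image ℝ a p q
  rw [add_comm p a, add_comm q a, ← this]
  apply image_congr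
  intro x _
  exact add_comm x a

lemma exposed_trn {a : E3} {P e : Set E3} (h : IsExposed ℝ P e) : IsExposed ℝ (trn a P) (trn a e) := by
  intro hne
  have hne' : e.Nonempty := by
    obtain ⟨x, hx⟩ := hne
    exact ⟨x - a, mem_trn.1 hx⟩
  obtain ⟨l, hl⟩ := h hne'
  refine ⟨l, ?_⟩
  ext x
  rw [mem_trn, hl]
  simp only [mem_setOf_eq, mem_trn]
  constructor
  · rintro ⟨h1, h2⟩
    refine ⟨h1, fun y hy => ?_⟩
    have := h2 (y - a) hy
    simp only [map_sub] at this
    linarith
  · rintro ⟨h1, h2⟩
    refine ⟨h1, fun y hy => ?_⟩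
    have := h2 (y + a) (by simpa using hy)
    simp only [map_add, map_sub] at this ⊢
    linarith

lemma edge_trn {a : E3} {P e : Set E3} (h : e ∈ edges P) : trn a e ∈ edges (trn a P) := by
  obtain ⟨p, q, hpq, rfl, hexp⟩ := h
  exact ⟨p + a, q + a, by simpa using hpq, trn_segment a p q, exposed_trn hexp⟩

lemma edge_trn_iff {a : E3} {P e : Set E3} : trn a e ∈ edges (trn a P) ↔ e ∈ edges P := by
  constructor
  · intro h
    have := edge_trn (a := -a) h
    rwa [trn_trn, trn_trn, add_neg_cancel, trn_zero, trn_zero] at this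
  · exact edge_trn

lemma edges_trn (a : E3) (P : Set E3) : edges (trn a P) = trn a '' edges P := by
  ext e
  constructor
  · intro h
    refine ⟨trn (-a) e, ?_, ?_⟩
    · rw [← edge_trn_iff (a := a), trn_trn, neg_add_cancel, trn_zero]
      exact h
    · rw [trn_trn, neg_add_cancel, trn_zero]
  · rintro ⟨e', he', rfl⟩
    exact edge_trn he'

lemma diam_trn (a : E3) (e : Set E3) : Metric.diam (trn a e) = Metric.diam e :=
  (IsometryEquiv.addRight a).isometry.diam_image e

lemma totalLength_trn (a : E3) (P : Set E3) : totalLength (trn a P) = totalLength P := by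
  unfold totalLength
  rw [edges_trn, finsum_mem_image (trn_injective a).injOn]
  exact finsum_mem_congr rfl fun e _ => diam_trn a e

lemma skeleton_trn (a : E3) (P : Set E3) : skeleton (trn a P) = trn a (skeleton P) := by
  unfold skeleton
  rw [edges_trn]
  ext x
  rw [mem_trn]
  simp only [mem_sUnion, mem_image]
  constructor
  · rintro ⟨e, ⟨e', he', rfl⟩, hx⟩
    exact ⟨e', he', mem_trn.1 hx⟩
  · rintro ⟨e, he, hx⟩
    exact ⟨trn a e, ⟨e, he, rfl⟩, mem_trn.2 hx⟩

lemma disjoint_ball_trn {a c : E3} {S : Set E3} :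
    Disjoint (ball (c + a) 1) (trn a S) ↔ Disjoint (ball c 1) S := by
  rw [Set.disjoint_left, Set.disjoint_left]
  constructor
  · intro h x hx hxS
    apply h (a := x + a) _ (mem_trn.2 (by simpa using hxS))
    rw [mem_ball, dist_add_right]
    exact hx
  · intro h x hx hxS
    apply h (a := x - a) _ (mem_trn.1 hxS)
    rw [mem_ball] at hx ⊢
    rw [← dist_add_right (x - a) c a]
    simpa using hx

theorem cage_trn {a c : E3} {P : Set E3} (h : P ∈ cageClass c) : trn a P ∈ cageClass (c + a) := by
  obtain ⟨⟨hb, hi, n, A, B, hA, hP⟩, htan, hcage⟩ := h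
  refine ⟨⟨?_, ?_, n, A, fun i => B i + inner ℝ (A i) a, hA, ?_⟩, ?_, ?_⟩
  · exact (IsometryEquiv.addRight a).isometry.lipschitz.isBounded_image hb
  · have : interior (trn a P) = trn a (interior P) :=
      ((Homeomorph.addRight a).image_interior P).symm
    rw [this]
    obtain ⟨x, hx⟩ := hi
    exact ⟨x + a, mem_trn.2 (by simpa using hx)⟩
  · ext x
    rw [mem_trn, hP]
    simp only [mem_setOf_eq, inner_sub_right]
    constructor
    · intro h i
      have := h i
      linarith
    · intro h i
      have := h i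
      linarith
  · intro e he
    rw [edges_trn] at he
    obtain ⟨e', he', rfl⟩ := he
    obtain ⟨⟨x, ⟨hx1, hx2⟩, hx3⟩, hd⟩ := htan e' he'
    refine ⟨⟨x + a, ⟨mem_trn.2 (by simpa using hx1), ?_⟩, ?_⟩, ?_⟩
    · rw [mem_sphere, dist_add_right]
      exact hx2
    · rintro y ⟨hy1, hy2⟩
      have := hx3 (y - a) ⟨mem_trn.1 hy1, by
        rw [mem_sphere] at hy2 ⊢
        rw [← dist_add_right (y - a) c a]
        simpa using hy2⟩
      rw [← this]
      simp
    · exact (disjoint_ball_trn.2 hd.symm).symm
  · rintro ⟨γ, hγ, h0, h1, h2⟩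
    apply hcage
    refine ⟨fun t => γ t - a, hγ.sub continuousOn_const, by simp [h0], ?_, ?_⟩
    · intro t ht
      have := h1 t ht
      rw [skeleton_trn] at this
      rw [← disjoint_ball_trn (a := a)]
      simpa using this
    · rw [← disjoint_ball_trn (a := a)]
      simpa using h2

/-- the class for the centre `c` is the translate of the class for the centre `0` -/
theorem image_totalLength (c : E3) : totalLength '' cageClass c = totalLength '' cageClass 0 := by
  ext r
  constructor
  · rintro ⟨P, hP, rfl⟩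
    refine ⟨trn (-c) P, ?_, totalLength_trn _ _⟩
    have := cage_trn (a := -c) hP
    rwa [add_neg_cancel] at this
  · rintro ⟨P, hP, rfl⟩
    refine ⟨trn c P, ?_, totalLength_trn _ _⟩
    have := cage_trn (a := c) hP
    rwa [zero_add] at this

end Pool.Agent.Lib.MP_af06f6_co
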