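import Mathlib
import Pool.Agent.Lib.MP_af06f6_co.Limit
import Pool.Agent.Lib.MP_af06f6_co.G.Main
import Pool.Agent.Lib.MP_af06f6_co.D.CS
import Pool.Agent.Lib.MP_af06f6_co.D.CS8
import Pool.Agent.Lib.MP_af06f6_co.D.P.CNT
import Pool.Agent.Lib.MP_af06f6_co.D.P.DB
import Pool.Agent.Lib.MP_af06f6_co.D.P.DNX
import Pool.Agent.Lib.MP_af06f6_co.D.P.E1
import Pool.Agent.Lib.MP_af06f6_co.D.P.T
import Pool.Agent.Lib.MP_af06f6_co.X.P.X0
import Pool.Agent.Lib.MP_af06f6_co.X.P.X1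
import Pool.Agent.Lib.MP_af06f6_co.X.P.X23
import Pool.Agent.Lib.MP_af06f6_co.X.P.X5
import Pool.Agent.Lib.MP_af06f6_co.X.P.X6ab
import Pool.Agent.Lib.MP_af06f6_co.X.P.X6cd
import Pool.Agent.Lib.MP_af06f6_co.X.P.X7
import Pool.Agent.Lib.MP_af06f6_co.X.P.X8
import Pool.Agent.Lib.MP_af06f6_co.X.P.X8ab
import Pool.Agent.Lib.MP_af06f6_co.X.P.X8cd
import Pool.Agent.Lib.MP_af06f6_co.X.P.X8e
import Pool.Agent.Lib.MP_af06f6_co.X.P.X8fg
import Pool.Agent.Lib.MP_af06f6_co.X.P.X9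
import Pool.Agent.Lib.MP_af06f6_co.Fin.Main
import Pool.Agent.Lib.MP_af06f6_co.Fin.Trans
import Pool.Agent.Lib.MP_af06f6_co.Fin.Poly

/-! # MP_af06f6_co: the final theorem -/

open Set Metric

namespace Pool.Agent.Lib.MP_af06f6_co

theorem E1_holds : Stm_E1 :=
  pf_E1 A3_holds A4_holds A5_holds A7_holds C2_holds C3_holds C4_holds C5_holds

theorem X8_holds : Stm_X8 := pf_X8 pf_X8a pf_X8b pf_X8c pf_X8d pf_X8e pf_X8f pf_X8g

theorem X1_holds : Stm_X1 := pf_X1 A3_holds D3_holds D4_holds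

theorem X0_holds : Stm_X0 := pf_X0 X1_holds D1_holds D2_holds

theorem D5_holds : Stm_D5 := pf_D5 D1_holds D2_holds D4_holds

theorem X7_holds : Stm_X7 :=
  pf_X7 (pf_X2 D2_holds) (pf_X3 D2_holds) pf_X5 pf_X6a pf_X6b pf_X6c pf_X6d D2_holds A3_holds

theorem X9_holds : Stm_X9 := pf_X9 X0_holds D1_holds X1_holds X7_holds X8_holds

/-- the lower bound for a midscribed dual pair -/
theorem mid_holds (V F : Finset E3) (hM : Mid V F) :
    (∃ w' : ℝ, 1 < w' ∧ FF w' < Len V F I3 hx) ∨ 14.966 ≤ Len V F I3 hx :=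
  mid_bound E1_holds pf_T1 pf_T2 pf_T3 pf_DB (pf_DN pf_CNT) (pf_DX pf_CNT) X0_holds X9_holds D5_holds
    cs3 cs4 cs5 cs6 cs7 cs8 V F hM

/-- the lower bound for cages of the unit sphere about the origin -/
theorem cage_lower {P : Set E3} (hP : P ∈ cageClass 0) :
    (∃ w' : ℝ, 1 < w' ∧ FF w' < totalLength P) ∨ 14.966 ≤ totalLength P := by
  obtain ⟨V, F, hM, hle⟩ := B11_holds P hP
  rw [← pf_E2 V F hM] at hle
  rcases mid_holds V F hM with ⟨w', h1, h2⟩ | h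
  · exact Or.inl ⟨w', h1, lt_of_lt_of_le h2 hle⟩
  · exact Or.inr (le_trans h hle)

theorem FF_upper : FF (338 / 125) < 14.965862 := by
  unfold FF
  norm_num

/-- a cage has finitely many edges -/
theorem cage_edges_finite {c : E3} {P : Set E3} (hP : P ∈ cageClass c) : (edges P).Finite := by
  have h0 : trn (-c) P ∈ cageClass 0 := by
    have := cage_trn (a := -c) hP
    rwa [add_neg_cancel] at this
  obtain ⟨n, a, b, hb, hPeq⟩ := B1_holds _ h0
  obtain ⟨V, F, hD, hV⟩ := B2_holds _ n a b h0.1.1 hb hPeq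
  have hfin : (edges (trn (-c) P)).Finite := by
    rw [hV]
    exact B6a_holds V
  rw [edges_trn] at hfin
  exact hfin.of_finite_image (trn_injective _).injOn

/-- **Main theorem** -/
theorem main_theorem : ∃ w₀ : ℝ, 1 < w₀ ∧ (∀ w : ℝ, 1 < w → FF w₀ ≤ FF w) ∧
    sextic (w₀ ^ 2) = 0 ∧ (∀ W : ℝ, 1 < W → sextic W = 0 → W = w₀ ^ 2) ∧
    14.96586 < FF w₀ ∧ FF w₀ < 14.965862 ∧
    ∀ c : E3, IsGLB (totalLength '' cageClass c) (FF w₀) ∧
      sInf (totalLength '' cageClass c) = FF w₀ ∧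
      ∀ P ∈ cageClass c, (edges P).Finite ∧ FF w₀ < totalLength P := by
  obtain ⟨w₀, h1, hmin⟩ := pf_X8m
  have hup : FF w₀ < 14.965862 := lt_of_le_of_lt (hmin _ (by norm_num)) FF_upper
  have hlow : ∀ P ∈ cageClass (0 : E3), FF w₀ < totalLength P := by
    intro P hP
    rcases cage_lower hP with ⟨w', h2, h3⟩ | h
    · exact lt_of_le_of_lt (hmin w' h2) h3
    · linarith
  have hlow' : ∀ c : E3, ∀ P ∈ cageClass c, FF w₀ < totalLength P := by
    intro c P hP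
    have h0 : trn (-c) P ∈ cageClass 0 := by
      have := cage_trn (a := -c) hP
      rwa [add_neg_cancel] at this
    have := hlow _ h0
    rwa [totalLength_trn] at this
  have hsInf : sInf (totalLength '' cageClass 0) ≤ FF w₀ := Inst.sInf_le w₀ h1
  have hne : (totalLength '' cageClass (0 : E3)).Nonempty := by
    obtain ⟨P, hP, -⟩ := Inst.exists_poly (338 / 125) (by norm_num) 14.965862 FF_upper
    exact ⟨_, P, hP, rfl⟩
  have hbdd : BddBelow (totalLength '' cageClass (0 : E3)) :=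
    ⟨FF w₀, by rintro _ ⟨P, hP, rfl⟩; exact (hlow P hP).le⟩
  have hGLB : IsGLB (totalLength '' cageClass (0 : E3)) (FF w₀) := by
    refine ⟨by rintro _ ⟨P, hP, rfl⟩; exact (hlow P hP).le, ?_⟩
    intro b hb
    exact le_trans (le_csInf hne (fun x hx => hb hx)) hsInf
  have hsx : sextic (w₀ ^ 2) = 0 := sextic_of_min h1 hmin
  refine ⟨w₀, h1, hmin, hsx, ?_, pf_X8n w₀ h1, hup, ?_⟩
  · intro W hW hW0
    exact sextic_unique hW (by nlinarith) hW0 hsx
  · intro c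
    rw [image_totalLength c]
    exact ⟨hGLB, hGLB.csInf_eq hne, fun P hP => ⟨cage_edges_finite hP, hlow' c P hP⟩⟩

end Pool.Agent.Lib.MP_af06f6_co
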